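import Pool.Agent.H21.DSeqDef

set_option autoImplicit false

namespace Pool.Agent.Results.MP_4ba7b3_gt.NotCompatible

open Pool.Agent.H21.DSeq Filter TopologicalSpace Topology

def v (m : ℕ) : ℕ → ℕ
  | 0 => m + 2
  | i + 1 => v m i * (v m i + 2)

lemma v_ge (m i : ℕ) : m + 2 ≤ v m i := by
  induction i with
  | zero => exact le_rfl
  | succ i ih => rw [v]; nlinarith

def K (m : ℕ) : ℕ := 2 ^ (2 * m) * v m (2 * m) * (v m (2 * m) + 1)

def G : ℕ → ℕ
  | 0 => 1
  | m + 1 => K m * G m * (m + 1).factorial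

def S (m : ℕ) : ℕ := K m * G m

lemma K3 (m : ℕ) : 3 ≤ K m := by
  have := v_ge m (2 * m)
  have h : 1 ≤ 2 ^ (2 * m) := Nat.one_le_two_pow
  unfold K; nlinarith [Nat.mul_le_mul h this]

lemma G_pos (m : ℕ) : 0 < G m := by
  induction m with
  | zero => exact one_pos
  | succ m ih => have := K3 m; rw [G]; positivity

lemma S_pos (m : ℕ) : 0 < S m := by have := K3 m; have := G_pos m; unfold S; positivity

lemma S_succ (m : ℕ) : S (m + 1) = S m * (K (m + 1) * (m + 1).factorial) := by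
  simp only [S, G]; ring

structure Fam (u : ℕ → ℕ → ℕ) : Prop where
  pos : ∀ m i, 0 < u m i
  step : ∀ m i, ∃ r, m + 2 ≤ r ∧ u m (i + 1) = u m i * r
  top : ∀ m, ∃ r, m + 2 ≤ r ∧ K m = 2 ^ (2 * m) * u m (2 * m) * r

lemma fam1 : Fam v := ⟨fun m i => by have := v_ge m i; omega,
  fun m i => ⟨_, by have := v_ge m i; omega, rfl⟩, fun m => ⟨_, by have := v_ge m (2 * m); omega, rfl⟩⟩

lemma fam2 : Fam fun m i => v m i + 1 := ⟨fun m i => by omega,
  fun m i => ⟨v m i + 1, by have := v_ge m i; omega, by rw [v]; ring⟩,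
  fun m => ⟨_, v_ge m (2 * m), by unfold K; ring⟩⟩

def d (u : ℕ → ℕ → ℕ) (m i : ℕ) : ℕ := S m / (2 ^ i * u m i)

def cs (u : ℕ → ℕ → ℕ) : ℕ → ℕ
  | 0 => 1
  | n + 1 => d u n.sqrt (2 * n.sqrt - (n - n.sqrt * n.sqrt))

variable {u : ℕ → ℕ → ℕ}

lemma d_mul (h : Fam u) {m i : ℕ} (hi : i ≤ 2 * m) : d u m i * (2 ^ i * u m i) = S m := by
  refine Nat.div_mul_cancel ?_
  obtain ⟨r, -, hr⟩ := h.top m
  have : ∀ j, 2 ^ i * u m i ∣ 2 ^ (i + j) * u m (i + j) := fun j => by
    induction j with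
    | zero => rfl
    | succ j ih =>
      obtain ⟨r, -, hr⟩ := h.step m (i + j)
      rw [← add_assoc, hr, pow_succ]
      exact ih.trans ⟨2 * r, by ring⟩
  have := this (2 * m - i)
  rw [Nat.add_sub_cancel' hi] at this
  rw [S, hr]
  exact (this.mul_right _).mul_right _

lemma d_top (h : Fam u) (m : ℕ) : ∃ r, m + 2 ≤ r ∧ d u m (2 * m) = r * G m := by
  obtain ⟨r, h1, hr⟩ := h.top m
  refine ⟨r, h1, Nat.eq_of_mul_eq_mul_right (m := 2 ^ (2 * m) * u m (2 * m))
    (by have := h.pos m (2 * m); positivity) ?_⟩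
  rw [d_mul h le_rfl, S, hr]; ring

lemma cs_at (m i : ℕ) (hi : i ≤ 2 * m) : cs u (m * m + (2 * m - i) + 1) = d u m i := by
  have : (m * m + (2 * m - i)).sqrt = m := Nat.sqrt_add_eq m (by omega)
  rw [cs, this]; congr 1; omega

lemma cs_step (h : Fam u) (n : ℕ) : ∃ r, n.sqrt + 2 ≤ r ∧ cs u (n + 2) = cs u (n + 1) * r := by
  set m := n.sqrt
  have h1 : m * m ≤ n := Nat.sqrt_le n
  have h2 : n < (m + 1) * (m + 1) := Nat.lt_succ_sqrt n
  obtain ⟨i, hi, hn⟩ : ∃ i ≤ 2 * m, n = m * m + (2 * m - i) :=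
    ⟨2 * m - (n - m * m), by omega, by ring_nf at h2 ⊢; ring_nf at h1; omega⟩
  clear_value m
  subst hn
  rw [cs_at m i hi]
  rcases i with _ | i
  · obtain ⟨r, h3, hr⟩ := d_top h (m + 1)
    have := cs_at (u := u) (m + 1) (2 * (m + 1)) le_rfl
    rw [show (m + 1) * (m + 1) + (2 * (m + 1) - 2 * (m + 1)) + 1 = m * m + (2 * m - 0) + 2 by
      simp; ring] at this
    have h4 := d_mul h hi
    refine ⟨r * (u m 0 * (m + 1).factorial), ?_, ?_⟩
    · have := Nat.mul_pos (h.pos m 0) (m + 1).factorial_pos; nlinarith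
    · rw [this, hr, G, ← S, ← h4]; ring
  · obtain ⟨r, h3, hr⟩ := h.step m i
    have := cs_at (u := u) m i (by omega)
    rw [show m * m + (2 * m - i) + 1 = m * m + (2 * m - (i + 1)) + 2 by omega] at this
    refine ⟨2 * r, by omega, Nat.eq_of_mul_eq_mul_right (m := 2 ^ i * u m i)
      (by have := h.pos m i; positivity) ?_⟩
    rw [this, d_mul h (by omega), ← d_mul h hi, hr]; ring

lemma cs_D (h : Fam u) : IsDinf (cs u) := by
  have st : ∀ n, ∃ r, 2 ≤ r ∧ cs u (n + 1) = cs u n * r := fun n => by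
    rcases n with _ | n
    · obtain ⟨r, h1, hr⟩ := d_top h 0
      exact ⟨r, h1, by simpa [cs, G] using hr⟩
    · obtain ⟨r, h1, hr⟩ := cs_step h n
      exact ⟨r, by omega, hr⟩
  have pos : ∀ n, 0 < cs u n := fun n => by
    induction n with
    | zero => exact one_pos
    | succ n ih => obtain ⟨r, h1, hr⟩ := st n; rw [hr]; positivity
  refine ⟨⟨rfl, fun n => ?_⟩, (tendsto_add_atTop_iff_nat 1).1 ?_⟩
  · obtain ⟨r, h1, hr⟩ := st n
    have := pos n
    exact ⟨this, ⟨r, hr⟩, by rw [hr]; nlinarith⟩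
  · have : Tendsto (fun n : ℕ => (n.sqrt : ℝ)) atTop atTop :=
      tendsto_natCast_atTop_atTop.comp (tendsto_atTop_atTop.2 fun b => ⟨b * b, fun a ha =>
        Nat.le_sqrt.2 ha⟩)
    refine tendsto_atTop_mono (fun n => ?_) this
    obtain ⟨r, h1, hr⟩ := cs_step h n
    have : (cs u (n + 1) : ℝ) ≠ 0 := by exact_mod_cast (pos _).ne'
    rw [hr, Nat.cast_mul, mul_div_cancel_left₀ _ this]
    exact_mod_cast (by omega : n.sqrt ≤ r)

lemma lam_le {b c : ℕ → ℕ} (h : ∀ n, ∃ m, b n ∣ c m) : lam c ≤ lam b := by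
  refine le_iInf fun n => ?_
  obtain ⟨m, hm⟩ := h n
  refine iInf_le_of_le m ?_
  have : (Int.cast : ℤ → ZMod (b n)) = ZMod.castHom hm (ZMod (b n)) ∘ Int.cast := by
    ext k; simp
  rw [this, ← induced_compose]
  exact induced_mono bot_le

lemma cs_lam (h : Fam u) : lam (cs u) = lam fun n => (n + 1).factorial := by
  refine le_antisymm (lam_le fun n => ?_) (lam_le fun n =>
    ⟨cs u n, Nat.dvd_factorial ((cs_D h).1.2 n).1 (by omega)⟩)
  obtain ⟨r, -, hr⟩ := d_top h (n + 1)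
  exact ⟨_, by rw [cs_at _ _ le_rfl, hr, G]; exact (dvd_mul_left _ _).mul_left _⟩

lemma dbl (y : ℝ) (h : ‖(y : UnitAddCircle)‖ ≤ 1 / 4) :
    ‖((2 * y : ℝ) : UnitAddCircle)‖ = 2 * ‖(y : UnitAddCircle)‖ := by
  have e : ((2 * y : ℝ) : UnitAddCircle) = ((2 * (y - round y) : ℝ) : UnitAddCircle) := by
    rw [mul_sub, AddCircle.coe_sub, show (2 : ℝ) * round y = ((2 * round y : ℤ) : ℝ) by simp,
      show ((((2 * round y : ℤ) : ℝ)) : UnitAddCircle) = 0 from
        (AddCircle.coe_eq_zero_iff _).2 ⟨2 * round y, by simp⟩, sub_zero]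
  rw [UnitAddCircle.norm_eq] at h
  rw [e, (AddCircle.norm_coe_eq_abs_iff _ one_ne_zero).2 (by rw [abs_mul]; simp; linarith),
    UnitAddCircle.norm_eq, abs_mul]; simp

lemma small (y η : ℝ) (hη : η ≤ 1 / 4) (N : ℕ)
    (h : ∀ i ≤ N, ‖((2 ^ i * y : ℝ) : UnitAddCircle)‖ ≤ η) :
    ‖(y : UnitAddCircle)‖ ≤ η * (1 / 2) ^ N := by
  have : ∀ i ≤ N, ‖((2 ^ i * y : ℝ) : UnitAddCircle)‖ = 2 ^ i * ‖(y : UnitAddCircle)‖ := by
    intro i hi
    induction i with
    | zero => simp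
    | succ i ih => rw [pow_succ', mul_assoc, dbl _ ((h i (by omega)).trans hη), ih (by omega)]; ring
  have h2 := h N le_rfl
  rw [this N le_rfl] at h2
  rw [one_div, inv_pow, ← div_eq_mul_inv, le_div_iff₀ (by positivity)]; linarith

lemma S_ge (M j : ℕ) : (S M : ℝ) / S (M + j) ≤ (1 / 3) ^ j := by
  have : 3 ^ j * S M ≤ S (M + j) := by
    induction j with
    | zero => simp
    | succ j ih =>
      rw [← add_assoc, S_succ, pow_succ]
      have := Nat.mul_le_mul (K3 (M + j + 1)) (M + j + 1).factorial_pos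
      nlinarith [Nat.mul_le_mul ih this]
  have h := S_pos (M + j)
  rw [one_div, inv_pow, div_le_iff₀ (by positivity), le_inv_mul_iff₀ (by positivity)]
  exact_mod_cast this

lemma summ : Summable fun m => (1 : ℝ) / S m := by
  refine Summable.of_nonneg_of_le (fun _ => by positivity) (fun m => ?_)
    (summable_geometric_of_lt_one (r := 1 / 3) (by norm_num) (by norm_num))
  have := S_ge 0 m
  rw [zero_add] at this
  refine le_trans ?_ this
  gcongr; exact_mod_cast S_pos 0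

noncomputable def x : ℝ := ∑' m, (1 : ℝ) / S m

lemma hs (k : ℝ) : HasSum (fun m => ((k * (1 / S m) : ℝ) : UnitAddCircle)) ((k * x : ℝ)) :=
  (summ.hasSum.mul_left k).map (QuotientAddGroup.mk' _) continuous_quotient_mk'

lemma bound (k ε : ℝ) (hε : ε ≤ 1 / 8)
    (h1 : ∀ n, ‖((k / cs v (n + 1) : ℝ) : UnitAddCircle)‖ ≤ ε)
    (h2 : ∀ n, ‖((k / cs (fun m i => v m i + 1) (n + 1) : ℝ) : UnitAddCircle)‖ ≤ ε) :
    ‖((k * x : ℝ) : UnitAddCircle)‖ ≤ 2 * ε * 2 := by
  have h0 : 0 ≤ ε := (norm_nonneg _).trans (h1 0)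
  refine (hs k).norm_le_of_bounded (hasSum_geometric_two.mul_left (2 * ε)) fun m => ?_
  refine (small _ (2 * ε) (by linarith) (2 * m) fun i hi => ?_).trans ?_
  · have a1 := h1 (m * m + (2 * m - i))
    have a2 := h2 (m * m + (2 * m - i))
    rw [cs_at _ _ hi] at a1 a2
    have e1 := congrArg (Nat.cast : ℕ → ℝ) (d_mul fam1 hi)
    have e2 := congrArg (Nat.cast : ℕ → ℝ) (d_mul fam2 hi)
    have hS : (S m : ℝ) ≠ 0 := by exact_mod_cast (S_pos m).ne'
    push_cast at e1 e2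
    have n1 : (d v m i : ℝ) ≠ 0 := fun h => hS (by rw [← e1, h, zero_mul])
    have n2 : (d (fun m i => v m i + 1) m i : ℝ) ≠ 0 := fun h => hS (by rw [← e2, h, zero_mul])
    have f1 : k / d v m i = k * (2 ^ i * v m i) / S m := by rw [← e1]; field_simp [(fam1.pos m i).ne']
    have f2 : k / d (fun m i => v m i + 1) m i = k * (2 ^ i * (v m i + 1)) / S m := by
      rw [← e2]; field_simp
    rw [show 2 ^ i * (k * (1 / S m)) = k / d (fun m i => v m i + 1) m i - k / d v m i by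
      rw [f1, f2]; ring, AddCircle.coe_sub]
    exact (norm_sub_le _ _).trans (by linarith)
  · exact mul_le_mul_of_nonneg_left (pow_le_pow_of_le_one (by norm_num) (by norm_num) (by omega))
      (by linarith)

lemma nb (c : ℕ → ℕ) (k : ℤ) {ε : ℝ} (hε : 0 < ε) :
    {j : ℤ | ∀ n, ‖((((j - k : ℤ) : ℝ) / c (n + 1) : ℝ) : UnitAddCircle)‖ ≤ ε} ∈ @nhds _ (tau c) k := by
  rw [nhds_induced]
  refine mem_comap.2 ⟨_, (UniformFun.hasBasis_nhds_of_basis ℕ UnitAddCircle _
    Metric.uniformity_basis_dist_le).mem_of_mem hε, fun j hj n => ?_⟩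
  have := hj n
  simp only [UniformFun.toFun_ofFun, Set.mem_setOf_eq, dist_comm, dist_eq_norm] at this
  rw [Int.cast_sub, sub_div, AddCircle.coe_sub, norm_sub_rev]
  exact this

lemma irr (k : ℤ) (n : ℕ) : ((x : ℝ) : UnitAddCircle) ≠ ((k : ℝ) / (n + 1).factorial : ℝ) := by
  intro h
  have h1 : (((S (n + 1) : ℝ) * x : ℝ) : UnitAddCircle) = 0 := by
    rw [← nsmul_eq_mul, AddCircle.coe_nsmul, h, ← AddCircle.coe_nsmul, AddCircle.coe_eq_zero_iff]
    refine ⟨S n * K (n + 1) * k, ?_⟩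
    rw [S_succ]; push_cast; simp; field_simp
  have dv : ∀ j m, S m ∣ S (m + j) := fun j m => by
    induction j with
    | zero => rfl
    | succ j ih => rw [← add_assoc, S_succ]; exact ih.mul_right _
  have h2 := (hasSum_nat_add_iff' (n + 2)).2 (hs (S (n + 1)))
  rw [h1, Finset.sum_eq_zero fun m hm => ?_, sub_zero] at h2
  · have sm : Summable fun m => (S (n + 1) : ℝ) * (1 / S (m + (n + 2))) :=
      (summable_nat_add_iff (f := fun m => (S (n + 1) : ℝ) * (1 / S m)) (n + 2)).2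
        (summ.mul_left _)
    have h3' : HasSum (fun m => (((S (n + 1) : ℝ) * (1 / S (m + (n + 2))) : ℝ) : UnitAddCircle))
        ((∑' m, (S (n + 1) : ℝ) * (1 / S (m + (n + 2))) : ℝ)) :=
      sm.hasSum.map (QuotientAddGroup.mk' _) continuous_quotient_mk'
    have h3 := h2.unique h3'
    set t := ∑' m, (S (n + 1) : ℝ) * (1 / S (m + (n + 2)))
    have t0 : 0 < t := sm.tsum_pos (fun _ => by positivity) 0 (by
      have := S_pos (n + 1); have := S_pos (0 + (n + 2)); positivity)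
    have t1 : t ≤ 1 / 2 := by
      have hg := (hasSum_geometric_of_lt_one (r := 1 / 3) (by norm_num) (by norm_num)).mul_left (1 / 3)
      refine (hasSum_le (fun m => ?_) sm.hasSum hg).trans (by norm_num)
      have := S_ge (n + 1) (m + 1)
      rw [pow_succ', show n + 1 + (m + 1) = m + (n + 2) by ring] at this
      rwa [mul_one_div]
    have h4 := (AddCircle.norm_coe_eq_abs_iff (1 : ℝ) (x := t) one_ne_zero).2 (by
      rw [abs_of_pos t0]; simpa using t1)
    rw [show ((t : ℝ) : AddCircle (1 : ℝ)) = 0 from h3.symm, norm_zero, abs_of_pos t0] at h4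
    exact t0.ne h4
  · obtain ⟨r, hr⟩ := dv (n + 1 - m) m
    rw [Nat.add_sub_cancel' (by have := Finset.mem_range.1 hm; omega)] at hr
    have hS : (S m : ℝ) ≠ 0 := by exact_mod_cast (S_pos m).ne'
    exact (AddCircle.coe_eq_zero_iff _).2 ⟨r, by rw [hr]; push_cast; simp; field_simp⟩

theorem result : ∃ b : ℕ → ℕ, IsD b ∧ ∃ χ : ℤ →+ UnitAddCircle, @Continuous _ _ (sTop b) _ χ ∧
    ∀ (k : ℤ) (n : ℕ), χ 1 ≠ (((k : ℝ) / b n : ℝ) : UnitAddCircle) := by
  refine ⟨fun n => (n + 1).factorial, ⟨rfl, fun n => ⟨Nat.factorial_pos _,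
    Nat.factorial_dvd_factorial (by omega), ((Nat.factorial_lt (by omega)).2 (by omega)).ne⟩⟩,
    AddMonoidHom.mk' (fun k => (((k : ℝ) * x : ℝ) : UnitAddCircle)) fun a b => by
      push_cast; rw [add_mul, AddCircle.coe_add], ?_, fun k n => by simpa using irr k n⟩
  letI := sTop fun n => (n + 1).factorial
  refine continuous_iff_continuousAt.2 fun k => Metric.tendsto_nhds.2 fun ε hε => ?_
  have l : ∀ {u}, Fam u → 𝓝 k ≤ @nhds _ (tau (cs u)) k := fun h =>
    nhds_mono (iInf_le_of_le _ (iInf_le_of_le (cs_D h) (iInf_le _ (cs_lam h))))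
  have hδ : 0 < min (1 / 8) (ε / 8) := by positivity
  filter_upwards [l fam1 (nb _ k hδ), l fam2 (nb _ k hδ)] with j h1 h2
  have := bound _ _ (min_le_left _ _) h1 h2
  rw [Int.cast_sub, sub_mul, AddCircle.coe_sub] at this
  rw [dist_eq_norm]
  exact this.trans_lt (by linarith [min_le_right (1 / 8) (ε / 8)])

end Pool.Agent.Results.MP_4ba7b3_gt.NotCompatible
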